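import Pool.Agent.Mob.Stmts

/-!
# SHF: measurability and shift invariance of the spreading
-/

set_option autoImplicit false

open MeasureTheory ProbabilityTheory Function

open scoped ENNReal BigOperators InnerProductSpace

noncomputable section

namespace Pool.Agent.Mob.H25

open Pool.Agent.Anderson Pool.Agent.Loc Pool.Agent.Helper54.Bal Pool.Agent.Mob

variable {d : ℕ}

/-- translation covariance of the resolvent -/
theorem G_tau {V : Cfg d} {z : ℂ} (hz : z.im ≠ 0) (x u : Site d) :
    G (tau x V) z (del 0) u = G V z (del x) (u + x) := by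
  have h : shift x (G V z (del x)) = G (tau x V) z (del 0) := by
    apply G_unique hz
    intro y
    have h1 := G_eq (V := V) hz (del x) (y + x)
    have h2 : lap (shift x (G V z (del x))) y = lap (G V z (del x)) (y + x) := by
      unfold lap
      apply Finset.sum_congr rfl
      intro i _
      rw [shift_apply, shift_apply]
      have e1 : y + Pi.single i 1 + x = y + x + Pi.single i 1 := by abel
      have e2 : y - Pi.single i 1 + x = y + x - Pi.single i 1 := by abel
      rw [e1, e2]
    rw [h2, shift_apply]
    change lap (G V z (del x)) (y + x) + ((V (y + x) : ℂ) - z) * G V z (del x) (y + x) = _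
    rw [h1, del_apply, del_apply]
    simp
  rw [← h, shift_apply]

theorem sd_add_self (x u : Site d) : sd x (u + x) = sd 0 u := by
  unfold sd
  congr 1
  funext i
  congr 1
  simp

theorem spr_tau (V : Cfg d) (x : Site d) {η : ℝ} (hη : η ≠ 0) (J : Set ℝ) (ℓ : ℕ) :
    spr (tau x V) 0 η J ℓ = spr V x η J ℓ := by
  unfold spr
  refine lintegral_congr fun E => ?_
  rw [← (Equiv.addRight x).tsum_eq (fun u : Site d => if ℓ ≤ sd x u then
    ENNReal.ofReal (‖G V (zz η E) (del x) u‖ ^ 2) else 0)]
  refine tsum_congr fun u => ?_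
  have hz : (zz η E).im ≠ 0 := by rw [zz_im]; exact hη
  rw [Equiv.coe_addRight, sd_add_self, G_tau hz]

theorem measurable_spr (x : Site d) {η : ℝ} (hη : η ≠ 0) (J : Set ℝ) (ℓ : ℕ) :
    Measurable (fun V : Site d → ℝ => spr V x η J ℓ) := by
  unfold spr
  have hm : Measurable (fun p : (Site d → ℝ) × ℝ => ∑' u : Site d, if ℓ ≤ sd x u then
      ENNReal.ofReal (‖G p.1 (zz η p.2) (del x) u‖ ^ 2) else 0) := by
    refine Measurable.tsum fun u => ?_
    by_cases h : ℓ ≤ sd x u
    · simp only [h, if_true]
      refine ENNReal.measurable_ofReal.comp ?_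
      have h0 : Continuous fun p : Cfg d × ℝ => (p.1, p.2, (del x : L2 d)) := by fun_prop
      have hc : Continuous fun p : Cfg d × ℝ => G p.1 (zz η p.2) (del x) := by
        have h3 := (continuous_G (d := d) hη).comp h0
        exact h3
      have hc2 : Continuous fun p : (Site d → ℝ) × ℝ => G p.1 (zz η p.2) (del x) u := by
        have h3 : Continuous fun p : (Site d → ℝ) × ℝ =>
            ⟪(del u : L2 d), G p.1 (zz η p.2) (del x)⟫_ℂ := continuous_const.inner hc
        refine h3.congr fun p => ?_
        rw [inner_del_left]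
      exact (hc2.norm.pow 2).measurable
    · simp only [h, if_false]
      exact measurable_const
  exact hm.lintegral_prod_right'

theorem shf : ShfStmt := by
  intro d ν _ η hη a b ℓ x
  refine ⟨measurable_spr x hη _ ℓ, ?_⟩
  have h1 : ∀ V : Site d → ℝ, spr V x η (Set.Ioo a b) ℓ = spr (tau x V) 0 η (Set.Ioo a b) ℓ :=
    fun V => (spr_tau V x hη _ ℓ).symm
  rw [lintegral_congr h1]
  exact (shiftInv_PP ν x).lintegral_comp (measurable_spr 0 hη _ ℓ)

end Pool.Agent.Mob.H25
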